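import Pool.Agent.N848.SK.Stm
import Pool.Agent.N848.AW.AlgR

/-!
# The condition for `m = D` as a system of linear equations (helper499)
-/

set_option autoImplicit false
set_option linter.unusedSectionVars false

open scoped Classical

namespace Pool.Agent.N848.AW.N499

open Finset
open Pool.Agent.R426 Pool.Agent.R426.QK
open Pool.Agent.Y698
open Pool.Agent.Y698.SG hiding PD
open H667R3 Pool.Agent.W192.HK Pool.Agent.TH936.CM Pool.Agent.TH936.PU
open Pool.Agent.N848.SK (Sqr S_CR1)

/-- the kernel of the reduction modulo `aR ^ 3` -/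
lemma r8_zero {x : RR} (h : r8 x = 0) : aR ^ 3 ∣ x := by
  rw [r8_eq, ZMod.intCast_zmod_eq_zero_iff_dvd] at h
  obtain ⟨k, hk⟩ := h
  have hk' : (cX x : RR) + 6 * (cY x : RR) = 8 * (k : RR) := by
    exact_mod_cast congrArg (fun t : ℤ => (t : RR)) hk
  refine ⟨(k : RR) * (aR - 3) + (2 - aR) * (cY x : RR), ?_⟩
  conv_lhs => rw [Pool.Agent.R426.QC.co' x]
  linear_combination hk' + ((k : RR) * (-aR ^ 2 + 2 * aR + 4) +
    (cY x : RR) * (aR ^ 2 - aR - 3)) * aR_sq

/-- the same at the conjugate place -/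
lemma r8c_zero {x : RR} (h : r8 (cj x) = 0) : (cj aR) ^ 3 ∣ x := by
  obtain ⟨c, hc⟩ := r8_zero h
  refine ⟨cj c, ?_⟩
  have h1 := congrArg cj hc
  rw [cj_cj, map_mul, map_pow] at h1
  exact h1

lemma sqr_of_cs {π x : RR} (hx : ¬ π ∣ x) (h : cs π x = 0) : Sqr π x := by
  have h1 : SG.sy π x = 1 := by
    rw [QK.sy_cs hx, h, QK.ez_zero]
  unfold SG.sy at h1
  rw [if_neg (fun h2 => hx (QK.mem_sp.1 h2))] at h1
  split_ifs at h1 with h2
  · obtain ⟨r, hr⟩ := h2
    obtain ⟨y, rfl⟩ := Ideal.Quotient.mk_surjective r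
    refine ⟨y, ?_⟩
    rw [← map_mul, Ideal.Quotient.eq] at hr
    rw [pow_two]
    exact Ideal.mem_span_singleton.1 hr
  · norm_num at h1

lemma od_q4 : ∀ u : ZMod 8, Od u → q4 u = 0 → u = 1 ∨ u = 5 := by decide

lemma q4_15 : ∀ u : ZMod 8, (u = 1 ∨ u = 5) → q4 u = 0 := by decide

/-- **Theorem CR1.** -/
theorem t_CR1 : S_CR1 := by
  intro hrec hsup hcls D hC
  obtain ⟨hS, hprod, h0, h5⟩ := hcls.1 D hC
  obtain ⟨S, hSdef⟩ : ∃ S, S = QK.PD D := ⟨_, rfl⟩
  rw [← hSdef] at hS hprod h0 h5 ⊢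
  have hm := hC.2.1
  have hm1 : ∀ π : RR, Pq π → cs π (-1) = tt π := fun π h => (hsup π h).1
  have hcca := cs_ca hsup hS
  have sc : ∑ π ∈ S, (tt π + hh π) = 1 := by rw [sum_add_distrib, h0, h5.2, zero_add]
  have hr3 : r8 aR ^ 3 = 0 := by rw [r8_a]; decide
  have eP : D = sg 0 * ∏ π ∈ S, π := by rw [sg_zero, one_mul, hprod]
  have hOd3 : Od (r8 (cj aR)) := by rw [r8_cja]; decide
  have hOd3' : Od ((r8.comp cj) aR) := hOd3
  constructor
  · -- the condition implies the statement on the linear system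
    intro hcond x hx hL
    have hnx : ∀ q, ¬ x q = 1 → x q = 0 := fun q h => (zm (x q)).resolve_right h
    obtain ⟨a, ha⟩ : ∃ a : RR, a = ∏ q ∈ S.filter (fun q => x q = 1), q := ⟨_, rfl⟩
    obtain ⟨b, hb⟩ : ∃ b : RR, b = ∏ q ∈ S.filter (fun q => ¬ x q = 1), q := ⟨_, rfl⟩
    have hab : D = a * b := by
      rw [← hprod, ha, hb]
      exact (prod_filter_mul_prod_filter_not S _ _).symm
    have hsum : ∀ π ∈ S, ∑ q ∈ S, cs π q * (x π + x q) = 0 := fun π hπ => by
      rw [rc_sum hrec hS h0 x hπ, hL π hπ, hx, mul_zero, add_zero]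
    have hsa : ∀ π ∈ S, ¬ x π = 1 → ¬ π ∣ a ∧ cs π a = 0 := by
      intro π hπ h
      obtain ⟨h1, h2⟩ := cs_set (hS π hπ) (U := S.filter (fun q => x q = 1))
        (fun q hq => hS q (mem_filter.1 hq).1) (fun h3 => h (mem_filter.1 h3).2)
      rw [ha]
      refine ⟨h1, ?_⟩
      rw [h2, sum_filter_x, ← hsum π hπ]
      refine sum_congr rfl fun q _ => ?_
      rw [hnx π h, zero_add]
    have hsb : ∀ π ∈ S, x π = 1 → ¬ π ∣ b ∧ cs π b = 0 := by
      intro π hπ h
      obtain ⟨h1, h2⟩ := cs_set (hS π hπ) (U := S.filter (fun q => ¬ x q = 1))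
        (fun q hq => hS q (mem_filter.1 hq).1) (fun h3 => (mem_filter.1 h3).2 h)
      rw [hb]
      refine ⟨h1, ?_⟩
      rw [h2, sum_filter]
      refine Eq.trans (sum_congr rfl fun q _ => ?_) (hsum π hπ)
      rw [h]
      rcases zm (x q) with h3 | h3
      · rw [h3, if_pos (by decide), add_zero, mul_one]
      · rw [h3, if_neg (by decide), dbl, mul_zero]
    have hA : aR ^ 3 ∣ a - 1 ∨ aR ^ 3 ∣ a - D := by
      obtain ⟨k1, k2⟩ := q_val ad_q4 r8 (U := S.filter (fun q => x q = 1)) (fun q hq =>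
        (q_r8 (hS q (mem_filter.1 hq).1).prm).1) hOd3 0 0
      rw [sg_zero, pw_zero, one_mul, one_mul, ← ha] at k1 k2
      rw [zero_mul, zero_mul, zero_add, zero_add,
        sum_eq_zero fun q hq => (q_r8 (hS q (mem_filter.1 hq).1).prm).2.1] at k2
      rcases od_q4 _ k1 k2 with h | h
      · left
        exact r8_zero (by rw [map_sub, h, map_one, sub_self])
      · right
        exact r8_zero (by rw [map_sub, h, r8_5 hm r8, sub_self])
    have hB : (cj aR) ^ 3 ∣ a - 1 ∨ (cj aR) ^ 3 ∣ a - D := by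
      obtain ⟨k1, k2⟩ := q_val ad_q4 (r8.comp cj) (U := S.filter (fun q => x q = 1)) (fun q hq =>
        (q_cj (hS q (mem_filter.1 hq).1).prm).1) hOd3' 0 0
      rw [sg_zero, pw_zero, one_mul, one_mul, ← ha] at k1 k2
      have k3 : ∑ q ∈ S.filter (fun q => x q = 1), q4 ((r8.comp cj) q) = 0 := by
        rw [← hx]
        unfold dt
        rw [← sum_filter_x]
        exact sum_congr rfl fun q hq => (q_cj (hS q (mem_filter.1 hq).1).prm).2.1
      rw [zero_mul, zero_mul, zero_add, zero_add, k3] at k2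
      have k4 : r8 (cj D) = 5 := r8_5 hm (r8.comp cj)
      rcases od_q4 _ k1 k2 with h | h
      · left
        have h' : r8 (cj a) = 1 := h
        exact r8c_zero (by rw [map_sub, map_sub, h', map_one, map_one, sub_self])
      · right
        have h' : r8 (cj a) = 5 := h
        exact r8c_zero (by rw [map_sub, map_sub, h', k4, sub_self])
    have hloc : ∀ π, Prime π → (π ∣ b → Sqr π a) ∧ (π ∣ a → Sqr π b) := by
      intro π hπ
      constructor
      · intro h1
        rw [hb] at h1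
        obtain ⟨q, hq, h2⟩ := (hπ.dvd_finsetProd_iff _).1 h1
        obtain ⟨hq1, hq2⟩ := mem_filter.1 hq
        obtain ⟨y, hy⟩ := sqr_of_cs (hsa q hq1 hq2).1 (hsa q hq1 hq2).2
        exact ⟨y, h2.trans hy⟩
      · intro h1
        rw [ha] at h1
        obtain ⟨q, hq, h2⟩ := (hπ.dvd_finsetProd_iff _).1 h1
        obtain ⟨hq1, hq2⟩ := mem_filter.1 hq
        obtain ⟨y, hy⟩ := sqr_of_cs (hsb q hq1 hq2).1 (hsb q hq1 hq2).2
        exact ⟨y, h2.trans hy⟩
    rcases hcond a b hab hA hB hloc with h | h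
    · refine ⟨0, fun p hp => ?_⟩
      by_contra h1
      have h2 : x p = 1 := (zm (x p)).resolve_left h1
      have h3 : p ∣ a := by
        rw [ha]
        exact Finset.dvd_prod_of_mem _ (mem_filter.2 ⟨hp, h2⟩)
      rw [h] at h3
      exact (hS p hp).prime.not_isUnit (isUnit_of_dvd_one h3)
    · refine ⟨1, fun p hp => ?_⟩
      by_contra h1
      apply (hsa p hp h1).1
      rw [h, ← hprod]
      exact Finset.dvd_prod_of_mem _ hp
  · -- the converse
    intro hE a b hab hA hB hloc
    have hsq : Squarefree a := hC.1.squarefree_of_dvd ⟨b, hab⟩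
    have hca : ¬ cj aR ∣ a := by
      intro h1
      have h2 : cj aR ∣ ∏ π ∈ S, π := by
        rw [hprod, hab]
        exact h1.mul_right _
      obtain ⟨l, hl, h3⟩ := (prime_cjaR.dvd_finsetProd_iff _).1 h2
      exact not_cja' hS l hl
        (((prime_cjaR.irreducible.associated_of_dvd (hS l hl).prime.irreducible h3).symm).dvd)
    obtain ⟨x, e, c, hd, heq, hc⟩ := master hrec hm1 hS h0 0 prime_cjaR (not_cja' hS) hcca sc hsq
      (fun ρ _ h1 => Or.inr (by rw [← eP, hab]; exact h1.mul_right _))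
      (by
        intro π hπ h1
        rw [← eP] at h1 ⊢
        by_cases h2 : π ∣ a
        · right
          obtain ⟨δ1, h3⟩ := h2
          refine ⟨δ1, δ1 * b, h3, by rw [hab, h3]; ring, ?_⟩
          obtain ⟨y, u, hy⟩ := (hloc π hπ).2 ⟨δ1, h3⟩
          exact ⟨δ1 * y, δ1 ^ 2 * u, by linear_combination δ1 ^ 2 * hy⟩
        · left
          refine ⟨h2, ?_⟩
          have h3 : π ∣ b := by
            rw [hab] at h1
            exact (hπ.dvd_or_dvd h1).resolve_left h2
          exact (hloc π hπ).1 h3)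
    have hc0 : c = 0 := by
      rcases zm c with h | h
      · exact h
      · exfalso
        apply hca
        rw [hd, h, pw_one]
        exact (Dvd.intro _ rfl : cj aR ∣ cj aR * _).mul_left _
    subst hc0
    have hdt : dt S tt x = 0 := by
      rw [add_zero, one_mul] at hc
      exact hc.symm
    -- the sign
    have he : e = 0 := by
      obtain ⟨k1, k2⟩ := q_val ad_q4 r8 (U := S.filter (fun q => x q = 1)) (fun q hq =>
        (q_r8 (hS q (mem_filter.1 hq).1).prm).1) hOd3 e 0
      rw [← hd, zero_mul, zero_add,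
        sum_eq_zero fun q hq => (q_r8 (hS q (mem_filter.1 hq).1).prm).2.1, add_zero] at k2
      have h7 : q4 7 = 1 := by decide
      rw [h7, mul_one] at k2
      rw [← k2]
      apply q4_15
      rcases hA with ⟨u, hu⟩ | ⟨u, hu⟩
      · left
        have h1 := congrArg r8 hu
        rw [map_sub, map_one, map_mul, map_pow, hr3, zero_mul] at h1
        exact sub_eq_zero.1 h1
      · right
        have h1 := congrArg r8 hu
        rw [map_sub, map_mul, map_pow, hr3, zero_mul, r8_5 hm r8] at h1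
        exact sub_eq_zero.1 h1
    have hcst : Cst S x := by
      apply hE x hdt
      intro p hp
      have h1 := heq p hp
      rw [hdt, he] at h1
      have h2 : ∀ u t y c : ZMod 2, u + t * 0 + (0 + 0 * y) * t + 0 * c = 0 → u = 0 := by decide
      exact h2 _ _ _ _ h1
    have := fin_cst (em := 0) hcst hd (fun _ => ⟨he, rfl⟩) (fun _ => ⟨he, rfl⟩)
    rwa [← eP] at this

end Pool.Agent.N848.AW.N499
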